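import Pool.Agent.H212AN.P_lst

set_option autoImplicit false

/-!
# The billiard length spectrum is invariant under isometries of the plane

`LS` is the length spectrum of the starting library (`Pool/Agent/H212AN/E4.lean`). The library proves
its invariance under translations; here all isometries, also the orientation reversing ones.
-/

namespace Pool.Agent.L7h97.LSI

open Set Filter Topology Metric Pool.Agent.H212AN
open Pool.Agent.W594.AN (ClosedCurve)
open scoped Real ComplexConjugate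

/-- the image of a closed curve under a linear isometry -/
noncomputable def lcurve (c : ClosedCurve) (L : ℂ ≃ₗᵢ[ℝ] ℂ) : ClosedCurve where
  L := c.L
  L_pos := c.L_pos
  γ := fun s => L (c.γ s)
  smooth := L.toContinuousLinearEquiv.contDiff.comp c.smooth
  periodic := by
    intro s
    change L (c.γ (s + c.L)) = L (c.γ s)
    rw [c.periodic s]
  unit_speed := by
    intro s
    have h1 : HasDerivAt c.γ (deriv c.γ s) s :=
      ((c.smooth.differentiable (by simp)) s).hasDerivAt
    have h : HasDerivAt (fun s => L (c.γ s)) (L (deriv c.γ s)) s :=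
      L.toContinuousLinearEquiv.hasFDerivAt.comp_hasDerivAt s h1
    rw [h.deriv, L.norm_map]
    exact c.unit_speed s
  injOn := by
    intro a ha b hb hab
    exact c.injOn ha hb (L.injective hab)

theorem lcurve_deriv (c : ClosedCurve) (L : ℂ ≃ₗᵢ[ℝ] ℂ) (s : ℝ) :
    deriv (lcurve c L).γ s = L (deriv c.γ s) := by
  have h1 : HasDerivAt c.γ (deriv c.γ s) s :=
    ((c.smooth.differentiable (by simp)) s).hasDerivAt
  have h : HasDerivAt (fun s => L (c.γ s)) (L (deriv c.γ s)) s :=
    L.toContinuousLinearEquiv.hasFDerivAt.comp_hasDerivAt s h1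
  exact h.deriv

theorem dr_map (L : ℂ ≃ₗᵢ[ℝ] ℂ) (p q : ℂ) : dr (L p) (L q) = L (dr p q) := by
  unfold dr
  have e : ∀ (x : ℂ) (t : ℝ), x / (t : ℂ) = (t⁻¹ : ℝ) • x := by
    intro x t
    rw [Complex.real_smul, Complex.ofReal_inv, div_eq_inv_mul]
  rw [← map_sub, L.norm_map, e, e, map_smul]

theorem refl_map (L : ℂ ≃ₗᵢ[ℝ] ℂ) {u v τ : ℂ} (h : Refl u v τ) : Refl (L u) (L v) (L τ) := by
  obtain ⟨h1, h2, h3⟩ := h
  have key : (∀ x y : ℂ, conj (L x) * L y = conj x * y) ∨
      ∀ x y : ℂ, conj (L x) * L y = conj (conj x * y) := by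
    obtain ⟨a, ha⟩ := linear_isometry_complex L
    have haa : conj (a : ℂ) * (a : ℂ) = 1 := by
      rw [← Complex.normSq_eq_conj_mul_self]
      simp
    rcases ha with rfl | rfl
    · left
      intro x y
      rw [rotation_apply, rotation_apply, map_mul]
      linear_combination (conj x * y) * haa
    · right
      intro x y
      simp only [LinearIsometryEquiv.trans_apply, rotation_apply, Complex.conjLIE_apply, map_mul,
        Complex.conj_conj]
      linear_combination (x * conj y) * haa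
  rcases key with key | key
  · unfold Refl
    rw [key, key]
    exact ⟨h1, h2, h3⟩
  · unfold Refl
    rw [key, key, Complex.conj_re, Complex.conj_re, Complex.conj_im, Complex.conj_im]
    exact ⟨h1, by rw [h2], neg_ne_zero.2 h3⟩

theorem LS_lin_sub (Ω : Set ℂ) (L : ℂ ≃ₗᵢ[ℝ] ℂ) : LS Ω ⊆ LS (L '' Ω) := by
  have hf : frontier (L '' Ω) = L '' frontier Ω := (L.toHomeomorph.image_frontier Ω).symm
  rintro ℓ ⟨k, p, ⟨h1, h2, h3⟩, rfl⟩
  refine ⟨k, fun i => L (p i), ⟨?_, ?_, ?_⟩, ?_⟩
  · intro i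
    rw [hf]
    exact ⟨p i, h1 i, rfl⟩
  · rintro i x ⟨a, b, ha, hb, hab, rfl⟩
    refine ⟨a • p i + b • p (i + 1), h2 i ⟨a, b, ha, hb, hab, rfl⟩, ?_⟩
    rw [map_add, map_smul, map_smul]
  · intro i
    obtain ⟨c, s, hc1, hc2, hc3⟩ := h3 i
    refine ⟨lcurve c L, s, ?_, ?_, ?_⟩
    · rw [hf]
      rintro _ ⟨t, rfl⟩
      exact ⟨c.γ t, hc1 ⟨t, rfl⟩, rfl⟩
    · change L (c.γ s) = L (p i)
      rw [hc2]
    · rw [dr_map, dr_map, lcurve_deriv]
      exact refl_map L hc3
  · refine Finset.sum_congr rfl fun i _ => ?_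
    rw [L.dist_map]

theorem LS_sub (Ω : Set ℂ) (φ : ℂ ≃ᵢ ℂ) : LS Ω ⊆ LS (φ '' Ω) := by
  have h : ∀ z, φ z = φ.toRealAffineIsometryEquiv.linearIsometryEquiv z + φ 0 := by
    intro z
    have h1 := φ.toRealAffineIsometryEquiv.map_vadd 0 z
    simpa using h1
  have e : φ '' Ω = (fun z => z + φ 0) ''
      (φ.toRealAffineIsometryEquiv.linearIsometryEquiv '' Ω) := by
    rw [image_image]
    exact image_congr fun z _ => h z
  rw [e]
  exact (LS_lin_sub Ω _).trans (pf_lst_sub _ _)

/-- **The length spectrum is invariant under isometries.** -/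
theorem LS_isometry (Ω : Set ℂ) (φ : ℂ ≃ᵢ ℂ) : LS (φ '' Ω) = LS Ω := by
  apply Subset.antisymm _ (LS_sub Ω φ)
  have h := LS_sub (φ '' Ω) φ.symm
  have e : φ.symm '' (φ '' Ω) = Ω := by
    rw [image_image]
    simp
  rwa [e] at h

end Pool.Agent.L7h97.LSI
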